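import Pool.Agent.H76.HMS.SvStmts
import Pool.Agent.H91.HMS.Q12

/-!
# HMS, module VDP: Lemma 1 (deep points)
-/

set_option autoImplicit false

namespace Pool.HMS

open TMLib Finset

namespace H10

/-- Polyhedra are convex. -/
theorem poly_convex (n : ℕ) (rows : Mat) : Convex ℚ (Poly n rows) := by
  intro x hx y hy a b ha hb hab
  refine ⟨fun i hi => ?_, fun r hr => ?_⟩
  · simp [hx.1 i hi, hy.1 i hi]
  · have h1 := hx.2 r hr
    have h2 := hy.2 r hr
    have h3 : aff n (fn r) (a • x + b • y) = a * aff n (fn r) x + b * aff n (fn r) y := by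
      rw [aff_eq, aff_eq, aff_eq]
      have : (a • x + b • y) = fun i => a * x i + b * y i := rfl
      rw [this, lin_add, lin_smul, lin_smul]
      linear_combination (- fn r 0) * hab
    rw [h3]
    positivity

end H10

theorem vdp_thm : S_VDP := by
  intro e rows ys z _ hys _ hz h
  have h1 := deep_mem_IC (Poly e rows) (H10.poly_convex e rows) (fun x hx => hx.1) ys hys z hz h
  exact h1

end Pool.HMS
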