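import Pool.Agent.H76.HMS.SvStmts
import Pool.Agent.H91.HMS.RLib

/-!
# HMS, module VS1: splitting one piece
-/

set_option autoImplicit false

namespace Pool.HMS

open TMLib Finset

namespace H10

theorem exists_enum (s : Finset ℕ) : ∃ g : ℕ → ℕ, (∀ j < s.card, g j ∈ s) ∧
    ∀ (F : ℕ → (ℕ → ℚ)), ∑ j ∈ range s.card, F (g j) = ∑ i ∈ s, F i := by
  classical
  refine ⟨fun j => if h : j < s.card then (s.equivFin.symm ⟨j, h⟩ : ℕ) else 0, ?_, ?_⟩
  · intro j hj
    simp only [dif_pos hj]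
    exact (s.equivFin.symm ⟨j, hj⟩).2
  · intro F
    rw [Finset.sum_range]
    have h1 : ∀ j : Fin s.card, F (if h : (j : ℕ) < s.card then (s.equivFin.symm ⟨j, h⟩ : ℕ) else 0) =
        F (s.equivFin.symm j : ℕ) := by
      intro j
      rw [dif_pos j.2]
    rw [Finset.sum_congr rfl fun j _ => h1 j]
    rw [Equiv.sum_comp s.equivFin.symm (fun i : s => F (i : ℕ))]
    exact Finset.sum_coe_sort s F

theorem mem_IC {A : Set (ℕ → ℚ)} {a : ℕ → ℚ} (h : a ∈ A) : a ∈ IC A :=
  ⟨1, fun _ => a, fun _ _ => h, by simp⟩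

theorem sum_mem_of_add {M : Type*} [AddCommMonoid M] {ι : Type*} (T : Set M) (h0 : (0 : M) ∈ T)
    (hadd : ∀ a ∈ T, ∀ b ∈ T, a + b ∈ T) (s : Finset ι) (f : ι → M) (h : ∀ i ∈ s, f i ∈ T) :
    ∑ i ∈ s, f i ∈ T := by
  classical
  induction s using Finset.induction_on with
  | empty => simpa using h0
  | insert a s ha ih =>
    rw [Finset.sum_insert ha]
    exact hadd _ (h a (Finset.mem_insert_self _ _)) _
      (ih fun i hi => h i (Finset.mem_insert_of_mem hi))

theorem embH_zero (h : S_VPR) (d e : ℕ) (N : Mat) : embH d e N 0 = 0 := by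
  have h1 := h.2.2.1 d e N 0 0
  rw [add_zero] at h1
  exact (add_eq_left.1 h1.symm)

theorem embH_sum (h : S_VPR) {ι : Type*} (d e : ℕ) (N : Mat) (s : Finset ι) (f : ι → ℕ → ℚ) :
    embH d e N (∑ i ∈ s, f i) = ∑ i ∈ s, embH d e N (f i) := by
  classical
  induction s using Finset.induction_on with
  | empty => simpa using embH_zero h d e N
  | insert a s ha ih =>
    rw [Finset.sum_insert ha, Finset.sum_insert ha, h.2.2.1, ih]

theorem repP_zero (h : S_VPR) (hc : S_VCB) (d : ℕ) (rows : Mat) (ps : List ENode) :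
    (0 : ℕ → ℚ) ∈ RepP d rows ps := by
  induction ps with
  | nil => exact rfl
  | cons x ps ih =>
    exact ⟨0, (hc.2.1 _).1, 0, ih, by rw [embH_zero h, add_zero]⟩

theorem repP_add (h : S_VPR) (hc : S_VCB) (d : ℕ) (rows : Mat) (ps : List ENode) :
    ∀ a ∈ RepP d rows ps, ∀ b ∈ RepP d rows ps, a + b ∈ RepP d rows ps := by
  induction ps with
  | nil =>
    intro a ha b hb
    have h1 : a = 0 := ha
    have h2 : b = 0 := hb
    rw [h1, h2, add_zero]
    exact rfl
  | cons x ps ih =>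
    rintro a ⟨u, hu, t, ht, rfl⟩ b ⟨u', hu', t', ht', rfl⟩
    refine ⟨u + u', (hc.2.1 _).2.1 u hu u' hu', t + t', ih t ht t' ht', ?_⟩
    rw [h.2.2.1]
    abel

theorem repP_mem (h : S_VPR) (hc : S_VCB) (d : ℕ) (rows : Mat) (ps : List ENode) (x : ENode)
    (hx : x ∈ ps) (u : ℕ → ℚ) (hu : u ∈ IC (HP d rows x)) :
    embH d x.1 x.2.1 u ∈ RepP d rows ps := by
  induction ps with
  | nil => exact absurd hx (by simp)
  | cons y ps ih =>
    rcases List.mem_cons.1 hx with rfl | hx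
    · exact ⟨u, hu, 0, repP_zero h hc d rows ps, by rw [add_zero]⟩
    · refine ⟨0, (hc.2.1 _).1, _, ih hx, ?_⟩
      rw [embH_zero h, zero_add]

theorem isI_list_sum (L : List ℚ) (h : ∀ a ∈ L, IsI a) : IsI L.sum := by
  induction L with
  | nil => simpa using IsI.zero
  | cons a L ih =>
    rw [List.sum_cons]
    exact (h a List.mem_cons_self).add (ih fun b hb => h b (List.mem_cons_of_mem _ hb))

theorem isI_sumTo (n : ℕ) (f : ℕ → ℚ) (h : ∀ i, IsI (f i)) : IsI (sumTo n f) := by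
  unfold sumTo
  refine isI_list_sum _ fun a ha => ?_
  obtain ⟨i, _, rfl⟩ := List.mem_map.1 ha
  exact h i

theorem ent_map_pull (e e' : ℕ) (N S : Mat) (i j : ℕ) (hN : ∀ i j, IsI (ent N i j))
    (hS : ∀ i j, IsI (ent S i j)) : IsI (ent (N.map (pull e e' S)) i j) := by
  unfold ent
  by_cases hi : i < N.length
  · have h1 : (N.map (pull e e' S)).getD i [] = pull e e' S (N.getD i []) := by
      simp [List.getD_eq_getElem?_getD, hi]
    rw [h1]
    unfold pull
    rw [fn_tab]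
    have h2 : IsI (sumTo e fun k => fn (N.getD i []) (k + 1) * ent S k j) :=
      isI_sumTo _ _ fun k => (hN i (k + 1)).mul (hS k j)
    split_ifs
    · exact (hN i 0).add h2
    · exact IsI.zero.add h2
    · exact IsI.zero
  · have h1 : (N.map (pull e e' S)).getD i [] = [] := by
      simp [List.getD_eq_getElem?_getD, not_lt.1 hi]
    rw [h1]
    simp [fn, IsI.zero]

end H10

theorem vs1_thm (hvfe : S_VFE) (hvpr : S_VPR) (hesl : S_ESL) (hekl : S_EKL) (heap : S_EAP)
    (hvcb : S_VCB) : S_VS1 := by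
  classical
  intro wd cr C d b B0 B rows x ys u R r hB0 hB0' hnode he hsem hys hu hR hr hwd hout
  have hrows := hvpr.1
  have hemb := hvpr.2.1
  have hhom := hvpr.2.2.2.2
  obtain ⟨k, a, ha, rfl⟩ := hu
  -- the lattice points
  have hy : ∀ i, ∃ y, i < k → y ∈ LP x.1 (rowsOf d rows x) ∧ hom x.1 y = a i := by
    intro i
    by_cases hi : i < k
    · obtain ⟨y, hy, hy'⟩ := ha i hi
      exact ⟨y, fun _ => ⟨hy, hy'⟩⟩
    · exact ⟨0, fun h => absurd h hi⟩
  choose y hy using hy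
  have hsum : (∑ i ∈ range k, a i) = ∑ i ∈ range k, hom x.1 (y i) :=
    Finset.sum_congr rfl fun i hi => by rw [(hy i (Finset.mem_range.1 hi)).2]
  rw [hsum] at hR ⊢
  -- bad points
  let bad : ℕ → Prop := fun i =>
    (fun c => ys c - (x.1 + 1) * hom x.1 (y i) c) ∉ Cone (HA x.1 (rowsOf d rows x))
  obtain ⟨g, hg, hgs⟩ := H10.exists_enum ((range k).filter bad)
  have hgb : ∀ j < ((range k).filter bad).card, g j < k ∧ bad (g j) := fun j hj => by
    have := hg j hj
    rw [Finset.mem_filter, Finset.mem_range] at this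
    exact this
  have hcard : ((((range k).filter bad).card : ℕ) : ℚ) ≤ ((x.1 : ℚ) + 1) ^ 2 * R := by
    refine hvfe x.1 (rowsOf d rows x) x.2.2 ys R _ (fun j => y (g j)) ?_ hys (by positivity)
      (fun j hj => ⟨(hy _ (hgb j hj).1).1, (hgb j hj).2⟩) ?_
    · intro z hz
      rw [hrows] at hz
      exact hsem z hz
    · rw [hgs fun i => hom x.1 (y i)]
      have h1 : (R : ℚ) • ys - ∑ i ∈ (range k).filter bad, hom x.1 (y i) =
          ((R : ℚ) • ys - ∑ i ∈ range k, hom x.1 (y i)) +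
            ∑ i ∈ (range k).filter (fun i => ¬ bad i), hom x.1 (y i) := by
        rw [← Finset.sum_filter_add_sum_filter_not (range k) bad]
        abel
      rw [h1]
      refine (hvcb.1 _).2.1 _ hR _ ?_
      refine H10.sum_mem_of_add _ (hvcb.1 _).1 (hvcb.1 _).2.1 _ _ fun i hi => ?_
      rw [Finset.mem_filter, Finset.mem_range] at hi
      exact (hvcb.2.1 _).2.2 (H10.mem_IC ⟨y i, (hy i hi.1).1, rfl⟩)
  rw [H10.embH_sum hvpr, ← Finset.sum_filter_add_sum_filter_not (range k) bad]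
  refine ⟨_, ?_, _, ?_, rfl⟩
  · refine ⟨((range k).filter bad).card, fun j => hom d (appF d x.1 x.2.1 (y (g j))), ?_, ?_, ?_⟩
    · exact_mod_cast hcard
    · intro j hj
      have h1 := hy _ (hgb j hj).1
      exact ⟨_, (hhom d rows x (y (g j)) h1.1.1 hnode.int).1 ⟨_, h1.1, rfl⟩, rfl⟩
    · rw [hgs fun i => hom d (appF d x.1 x.2.1 (y i))]
      exact Finset.sum_congr rfl fun i _ => hemb d x.1 x.2.1 (y i)
  · refine H10.sum_mem_of_add _ (H10.repP_zero hvpr hvcb d rows _)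
      (H10.repP_add hvpr hvcb d rows _) _ _ fun i hi => ?_
    rw [Finset.mem_filter, Finset.mem_range] at hi
    obtain ⟨hik, hgood⟩ := hi
    have hgood' : (fun c => ys c - (x.1 + 1) * hom x.1 (y i) c) ∈
        Cone (HA x.1 (rowsOf d rows x)) := not_not.1 hgood
    have hyi := (hy i hik).1
    have hPP : y i ∈ PP x.1 (rowsOf d rows x) ys := ⟨hyi.2, hgood'⟩
    have hU := hout.uni rfl
    set κ : ℚ := ∑ c ∈ range x.1, ent r.2.1.2 (x.1 - 1) c * y i c with hκ
    have hκI : IsI κ := IsI.sum fun c _ => (hU.intW _ _).mul (hyi.1.2 c)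
    have hκm : κ ∈ kList b r.2.2.1 r.2.2.2 := by
      have h1 := hout.width rfl
      have h2 : r.2.2.2 - r.2.2.1 < b := lt_of_le_of_lt h1 (by exact_mod_cast hwd)
      rw [(hekl b _ _ (hout.int0 rfl) (hout.int1 rfl) h2).1]
      exact ⟨hκI, hout.flat_spec rfl _ hPP hyi.1⟩
    obtain ⟨x', hx', hx'e⟩ := (hesl x.1 r.2.1.1 r.2.1.2 he hU).1 (y i) hyi.1
    rw [← hκ] at hx'e
    obtain ⟨hSint, -, -⟩ := (hesl x.1 r.2.1.1 r.2.1.2 he hU).2.2 κ hκI
    -- the kid
    set kid : ENode := (x.1 - 1, x.2.1.map (pull x.1 (x.1 - 1) (slice x.1 r.2.1.1 κ)),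
      newB x.1 r.2.1.2 x.2.2) with hkid
    have hmem : kid ∈ kids b x r := List.mem_map.2 ⟨κ, hκm, rfl⟩
    have happ : appF d (x.1 - 1) kid.2.1 x' = appF d x.1 x.2.1 (y i) := by
      rw [← hx'e]
      exact heap.2.2.2.2.2.1 d x.1 (x.1 - 1) x.2.1 _ x'
    have hint : ∀ i j, IsI (ent kid.2.1 i j) := fun i j =>
      H10.ent_map_pull _ _ _ _ i j hnode.int hSint
    have hLP : appF d x.1 x.2.1 (y i) ∈ LP d rows :=
      (hhom d rows x (y i) hyi.1 hnode.int).1 ⟨_, hyi, rfl⟩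
    have hHP : hom kid.1 x' ∈ HP d rows kid := by
      refine (hhom d rows kid x' hx' hint).2 ?_
      change appF d (x.1 - 1) kid.2.1 x' ∈ LP d rows
      rw [happ]
      exact hLP
    have hfin : embH d x.1 x.2.1 (hom x.1 (y i)) = embH d kid.1 kid.2.1 (hom kid.1 x') := by
      rw [hemb, hemb]
      change hom d (appF d x.1 x.2.1 (y i)) = hom d (appF d (x.1 - 1) kid.2.1 x')
      rw [happ]
    rw [hfin]
    exact H10.repP_mem hvpr hvcb d rows _ kid hmem _ (H10.mem_IC hHP)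

end Pool.HMS
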